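import Pool.Agent.Q145.ART.Stm

/-!
# Project ART (helper145), job SAN: from one `x` to all `x`
-/

set_option autoImplicit false

namespace Pool.Agent.Q150.ART

open Finset Filter
open Pool.Agent.Q145.ART

/-! ## `num` -/

theorem num_nonneg {α : Type} (s : Finset α) (P : α → Prop) : 0 ≤ num s P := by
  unfold num
  positivity

theorem num_mono {α : Type} (s s' : Finset α) (P Q : α → Prop) (hs : s ⊆ s')
    (h : ∀ a ∈ s, P a → Q a) : num s P ≤ num s' Q := by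
  classical
  unfold num
  have : (s.filter P).card ≤ (s'.filter Q).card := by
    apply Finset.card_le_card
    intro a ha
    rw [mem_filter] at ha ⊢
    exact ⟨hs ha.1, h a ha.1 ha.2⟩
  exact_mod_cast this

theorem num_exists {α β : Type} (s : Finset α) (T : Finset β) (P : β → α → Prop) :
    num s (fun a => ∃ m ∈ T, P m a) ≤ ∑ m ∈ T, num s (P m) := by
  classical
  unfold num
  rw [← Nat.cast_sum, Nat.cast_le]
  refine (Finset.card_le_card ?_).trans Finset.card_biUnion_le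
  intro a ha
  simp only [Finset.mem_filter] at ha
  obtain ⟨h1, m, hm, h2⟩ := ha
  rw [Finset.mem_biUnion]
  refine ⟨m, hm, ?_⟩
  simp only [Finset.mem_filter]
  exact ⟨h1, h2⟩

theorem PP_mono {x y : ℕ} (h : x ≤ y) : PP x ⊆ PP y := by
  intro p hp
  unfold PP at *
  rw [mem_filter, mem_range] at *
  exact ⟨by omega, hp.2⟩

theorem cnt_mono {n : ℕ} (t : Fin n → ℤ) (a : Fin n → ℕ) {x y : ℕ} (h : x ≤ y) :
    cnt t a x ≤ cnt t a y :=
  num_mono _ _ _ _ (PP_mono h) fun _ _ h => h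

/-! ## The main term -/

theorem ww_nonneg (p : ℕ) (t : ℤ) : 0 ≤ ww p t := by
  unfold ww
  split_ifs <;> positivity

theorem tot2 (m : ℕ) : Nat.totient (2 * m) ≤ m := by
  induction m using Nat.strong_induction_on with
  | _ m ih =>
    rcases Nat.even_or_odd m with hm | hm
    · rw [Nat.totient_two_mul_of_even hm]
      obtain ⟨j, hj⟩ := hm
      rcases Nat.eq_zero_or_pos m with h0 | h0
      · subst h0
        simp
      · have h1 := ih j (by omega)
        have h2 : m = 2 * j := by omega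
        rw [← h2] at h1
        omega
    · rw [Nat.totient_two_mul_of_odd hm]
      exact Nat.totient_le m

theorem ww_le (p : ℕ) (hp : p.Prime) (t : ℤ) : ww p t ≤ 1 / 2 := by
  unfold ww
  split_ifs with h
  · have hp0 : (0 : ℝ) < p := by exact_mod_cast hp.pos
    rw [div_le_iff₀ hp0]
    have h1 : 2 * Nat.totient (p - 1) ≤ p := by
      rcases hp.eq_two_or_odd with h2 | h2
      · subst h2
        simp
      · have h3 : Even (p - 1) := by
          rw [Nat.even_iff]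
          omega
        have h4 : 2 < p := by
          have := hp.two_le
          rcases Nat.lt_or_ge 2 p with h5 | h5
          · exact h5
          · omega
        obtain ⟨m, hm⟩ := h3
        have h5 : Nat.totient (p - 1) ≤ m := by
          have h6 : p - 1 = 2 * m := by omega
          rw [h6]
          exact tot2 m
        omega
    have h2 : (2 * (Nat.totient (p - 1) : ℝ)) ≤ p := by exact_mod_cast h1
    linarith
  · exact le_rfl

theorem main_mono {n : ℕ} (t : Fin n → ℤ) {x y : ℕ} (h : x ≤ y) : main t x ≤ main t y := by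
  unfold main
  exact Finset.sum_le_sum_of_subset_of_nonneg (PP_mono h)
    fun _ _ _ => Finset.prod_nonneg fun _ _ => ww_nonneg _ _

theorem main_nonneg {n : ℕ} (t : Fin n → ℤ) (x : ℕ) : 0 ≤ main t x :=
  Finset.sum_nonneg fun _ _ => Finset.prod_nonneg fun _ _ => ww_nonneg _ _

theorem main_diff {n : ℕ} (t : Fin n → ℤ) {x y : ℕ} (h : x ≤ y) :
    main t y ≤ main t x + (1 / 2 : ℝ) ^ n * ((y : ℝ) - x) := by
  unfold main
  rw [← Finset.sum_sdiff (PP_mono h), add_comm]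
  apply add_le_add_right
  have h1 : ∀ p ∈ PP y \ PP x, ∏ i, ww p (t i) ≤ (1 / 2 : ℝ) ^ n := by
    intro p hp
    have hp1 : p.Prime := by
      have := (Finset.mem_sdiff.1 hp).1
      unfold PP at this
      exact (mem_filter.1 this).2
    calc ∏ i, ww p (t i) ≤ ∏ _i : Fin n, (1 / 2 : ℝ) :=
          Finset.prod_le_prod (fun i _ => ww_nonneg _ _) fun i _ => ww_le p hp1 _
      _ = _ := by rw [Finset.prod_const, Finset.card_univ, Fintype.card_fin]
  refine (Finset.sum_le_sum h1).trans ?_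
  rw [Finset.sum_const, nsmul_eq_mul, mul_comm]
  apply mul_le_mul_of_nonneg_left _ (by positivity)
  have h2 : (PP y \ PP x) ⊆ Finset.Ioc x y := by
    intro p hp
    rw [Finset.mem_sdiff] at hp
    unfold PP at hp
    rw [mem_filter, mem_filter, mem_range, mem_range] at hp
    rw [mem_Ioc]
    refine ⟨?_, by omega⟩
    by_contra hcon
    exact hp.2 ⟨by omega, hp.1.2⟩
  have h3 := Finset.card_le_card h2
  rw [Nat.card_Ioc] at h3
  have h4 : ((PP y \ PP x).card : ℝ) ≤ ((y - x : ℕ) : ℝ) := by exact_mod_cast h3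
  rw [Nat.cast_sub h] at h4
  exact h4

theorem main_low (hlow : ∃ C : ℝ, ∀ x K : ℕ, C ≤ x → (K : ℝ) ≤ 2 * Real.log x →
    (1 / 2 : ℝ) ^ K * ((x : ℝ) / (Real.log x) ^ 3) ≤
      ∑ p ∈ PP x, ((Nat.totient (p - 1) : ℝ) / (p : ℝ)) ^ K) :
    ∃ C : ℝ, ∀ (x n : ℕ) (t : Fin n → ℤ), C ≤ x → (n : ℝ) ≤ 2 * Real.log x →
      (1 / 2 : ℝ) ^ n * ((x : ℝ) / (Real.log x) ^ 3) ≤ main t x := by
  obtain ⟨C, hC⟩ := hlow
  refine ⟨C, fun x n t hx hn => ?_⟩
  classical
  obtain ⟨K, hK⟩ : ∃ K, K = (univ.filter fun i : Fin n => t i = 0).card := ⟨_, rfl⟩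
  obtain ⟨K', hK'⟩ : ∃ K', K' = (univ.filter fun i : Fin n => ¬ t i = 0).card := ⟨_, rfl⟩
  have hKK : K + K' = n := by
    rw [hK, hK', Finset.card_filter_add_card_filter_not, Finset.card_univ, Fintype.card_fin]
  have hKn : (K : ℝ) ≤ 2 * Real.log x := by
    have : (K : ℝ) ≤ n := by
      have : K ≤ n := by omega
      exact_mod_cast this
    linarith
  have h1 : main t x = (∑ p ∈ PP x, ((Nat.totient (p - 1) : ℝ) / (p : ℝ)) ^ K) * (1 / 2 : ℝ) ^ K' := by
    unfold main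
    rw [Finset.sum_mul]
    refine Finset.sum_congr rfl fun p _ => ?_
    unfold ww
    rw [Finset.prod_ite, Finset.prod_const, Finset.prod_const, ← hK, ← hK']
  rw [h1, ← hKK, pow_add]
  have h2 := hC x K hx hKn
  calc (1 / 2 : ℝ) ^ K * (1 / 2 : ℝ) ^ K' * ((x : ℝ) / (Real.log x) ^ 3)
      = (1 / 2 : ℝ) ^ K * ((x : ℝ) / (Real.log x) ^ 3) * (1 / 2 : ℝ) ^ K' := by ring
    _ ≤ _ := mul_le_mul_of_nonneg_right h2 (by positivity)

/-! ## The grid -/

/-- the points -/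
noncomputable def gg (D : ℝ) (m : ℕ) : ℕ := ⌊Real.exp ((m : ℝ) ^ (1 / D))⌋₊

theorem gg_mono {D : ℝ} (hD : 0 < D) {m m' : ℕ} (h : m ≤ m') : gg D m ≤ gg D m' := by
  unfold gg
  apply Nat.floor_le_floor
  apply Real.exp_le_exp.2
  apply Real.rpow_le_rpow (by positivity) (by exact_mod_cast h) (by positivity)

/-- the index of the grid point before `x` -/
noncomputable def ix (D : ℝ) (x : ℕ) : ℕ := ⌊(Real.log x) ^ D⌋₊

theorem u_le {D : ℝ} (hD : 0 < D) {x : ℕ} (hx : 1 ≤ x) : ((ix D x : ℕ) : ℝ) ^ (1 / D) ≤ Real.log x := by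
  have hl : 0 ≤ Real.log x := Real.log_nonneg (by exact_mod_cast hx)
  have h1 : ((ix D x : ℕ) : ℝ) ≤ (Real.log x) ^ D := Nat.floor_le (Real.rpow_nonneg hl _)
  calc ((ix D x : ℕ) : ℝ) ^ (1 / D) ≤ ((Real.log x) ^ D) ^ (1 / D) :=
        Real.rpow_le_rpow (by positivity) h1 (by positivity)
    _ = _ := by rw [← Real.rpow_mul hl, mul_one_div_cancel hD.ne', Real.rpow_one]

theorem lt_v {D : ℝ} (hD : 0 < D) {x : ℕ} (hx : 1 ≤ x) :
    Real.log x < ((ix D x + 1 : ℕ) : ℝ) ^ (1 / D) := by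
  have hl : 0 ≤ Real.log x := Real.log_nonneg (by exact_mod_cast hx)
  have h1 : (Real.log x) ^ D < ((ix D x + 1 : ℕ) : ℝ) := by
    push_cast
    exact Nat.lt_floor_add_one _
  calc Real.log x = ((Real.log x) ^ D) ^ (1 / D) := by
        rw [← Real.rpow_mul hl, mul_one_div_cancel hD.ne', Real.rpow_one]
    _ < _ := Real.rpow_lt_rpow (Real.rpow_nonneg hl _) h1 (by positivity)

theorem gg_le {D : ℝ} (hD : 0 < D) {x : ℕ} (hx : 1 ≤ x) : gg D (ix D x) ≤ x := by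
  unfold gg
  apply Nat.floor_le_of_le
  have hx0 : (0 : ℝ) < x := by exact_mod_cast hx
  calc Real.exp ((ix D x : ℝ) ^ (1 / D)) ≤ Real.exp (Real.log x) := Real.exp_le_exp.2 (u_le hD hx)
    _ = x := Real.exp_log hx0

theorem le_gg {D : ℝ} (hD : 0 < D) {x : ℕ} (hx : 1 ≤ x) : x ≤ gg D (ix D x + 1) := by
  unfold gg
  apply Nat.le_floor
  have hx0 : (0 : ℝ) < x := by exact_mod_cast hx
  calc (x : ℝ) = Real.exp (Real.log x) := (Real.exp_log hx0).symm
    _ ≤ Real.exp (((ix D x + 1 : ℕ) : ℝ) ^ (1 / D)) := Real.exp_le_exp.2 (lt_v hD hx).le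

theorem ix_mono {D : ℝ} (hD : 0 < D) {x y : ℕ} (hx : 1 ≤ x) (h : x ≤ y) : ix D x ≤ ix D y := by
  unfold ix
  apply Nat.floor_le_floor
  apply Real.rpow_le_rpow (Real.log_nonneg (by exact_mod_cast hx)) _ hD.le
  exact Real.log_le_log (by exact_mod_cast hx) (by exact_mod_cast h)

theorem ix_ge {D : ℝ} (hD : 1 ≤ D) {x : ℕ} (hl : 2 ≤ Real.log x) :
    (Real.log x) ^ D / 2 ≤ ((ix D x : ℕ) : ℝ) := by
  have h1 : (Real.log x) ^ D < ((ix D x : ℕ) : ℝ) + 1 := Nat.lt_floor_add_one _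
  have h2 : 2 ≤ (Real.log x) ^ D := by
    calc (2 : ℝ) ≤ Real.log x := hl
      _ = (Real.log x) ^ (1 : ℝ) := (Real.rpow_one _).symm
      _ ≤ _ := Real.rpow_le_rpow_of_exponent_le (by linarith) hD
  linarith

/-- the gaps of the grid -/
theorem gap {D : ℝ} (hD : 2 ≤ D) {x : ℕ} (hx : 1 ≤ x) (hl : 4 ≤ Real.log x)
    (hb : (Real.log x) ^ (D - 1) ≤ x) :
    ((gg D (ix D x + 1) : ℕ) : ℝ) - gg D (ix D x) ≤ 5 * (x * (Real.log x) ^ (1 - D)) := by
  have hD0 : 0 < D := by linarith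
  have hx0 : (0 : ℝ) < x := by exact_mod_cast hx
  set m := ix D x with hm
  set l := Real.log x with hl'
  have hl0 : 0 < l := by linarith
  have hm1 : l ^ D / 2 ≤ (m : ℝ) := ix_ge (by linarith) (by linarith)
  have hlD : 0 < l ^ D := Real.rpow_pos_of_pos hl0 _
  have hm0 : (0 : ℝ) < m := by linarith
  obtain ⟨u, hu⟩ : ∃ u : ℝ, u = (m : ℝ) ^ (1 / D) := ⟨_, rfl⟩
  obtain ⟨v, hv⟩ : ∃ v : ℝ, v = ((m + 1 : ℕ) : ℝ) ^ (1 / D) := ⟨_, rfl⟩
  have hul : u ≤ l := by rw [hu]; exact u_le hD0 hx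
  have hu0 : 0 < u := by rw [hu]; positivity
  have hvu : v - u ≤ 2 * l ^ (1 - D) := by
    have h1 : v = u * (1 + 1 / m) ^ (1 / D) := by
      rw [hu, hv, ← Real.mul_rpow hm0.le (by positivity)]
      congr 1
      push_cast
      field_simp
    have h2 : (1 + 1 / (m : ℝ)) ^ (1 / D) ≤ 1 + (1 / D) * (1 / m) := by
      apply rpow_one_add_le_one_add_mul_self
      · have : 0 < 1 / (m : ℝ) := by positivity
        linarith
      · positivity
      · rw [div_le_one hD0]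
        linarith
    have h3 : (1 / D) * (1 / (m : ℝ)) ≤ 1 / m := by
      have h4 : 1 / D ≤ 1 := by
        rw [div_le_one hD0]
        linarith
      have h5 : 0 < 1 / (m : ℝ) := by positivity
      nlinarith
    have h4 : v ≤ u * (1 + 1 / m) := by
      rw [h1]
      exact mul_le_mul_of_nonneg_left (by linarith) hu0.le
    have h5 : u * (1 / (m : ℝ)) ≤ l * (2 / l ^ D) := by
      apply mul_le_mul hul _ (by positivity) hl0.le
      rw [div_le_div_iff₀ hm0 hlD]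
      linarith
    have h6 : l * (2 / l ^ D) = 2 * l ^ (1 - D) := by
      rw [Real.rpow_sub hl0, Real.rpow_one]
      ring
    calc v - u ≤ u * (1 + 1 / m) - u := by linarith
      _ = u * (1 / m) := by ring
      _ ≤ _ := by rw [← h6]; exact h5
  have hl1 : l ^ (1 - D) ≤ 1 / 4 := by
    calc l ^ (1 - D) ≤ l ^ (-1 : ℝ) := Real.rpow_le_rpow_of_exponent_le (by linarith) (by linarith)
      _ = 1 / l := by rw [Real.rpow_neg_one, one_div]
      _ ≤ 1 / 4 := one_div_le_one_div_of_le (by norm_num) hl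
  have hvu0 : 0 ≤ v - u := by
    have : u ≤ v := by
      rw [hu, hv]
      apply Real.rpow_le_rpow (by positivity) _ (by positivity)
      push_cast
      linarith
    linarith
  have hexp : Real.exp (v - u) - 1 ≤ 2 * (v - u) := by
    have h1 := Real.abs_exp_sub_one_le (x := v - u) (by rw [abs_of_nonneg hvu0]; linarith)
    rw [abs_of_nonneg hvu0] at h1
    exact (le_abs_self _).trans h1
  have hexpu : Real.exp u ≤ x := by
    rw [← Real.exp_log hx0]
    exact Real.exp_le_exp.2 hul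
  have h1 : Real.exp v - Real.exp u ≤ x * (2 * (2 * l ^ (1 - D))) := by
    have h2 : Real.exp v - Real.exp u = Real.exp u * (Real.exp (v - u) - 1) := by
      rw [mul_sub, ← Real.exp_add, mul_one]
      congr 2
      ring
    rw [h2]
    apply mul_le_mul hexpu (by linarith) _ hx0.le
    have := Real.one_le_exp hvu0
    linarith
  have h2 : ((gg D (m + 1) : ℕ) : ℝ) ≤ Real.exp v := by
    unfold gg
    rw [hv]
    exact Nat.floor_le (Real.exp_pos _).le
  have h3 : Real.exp u - 1 < ((gg D m : ℕ) : ℝ) := by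
    unfold gg
    rw [hu]
    exact Nat.sub_one_lt_floor _
  have h4 : 1 ≤ x * l ^ (1 - D) := by
    have h5 : l ^ (1 - D) = (l ^ (D - 1))⁻¹ := by
      rw [← Real.rpow_neg hl0.le]
      congr 1
      ring
    rw [h5, ← div_eq_mul_inv, one_le_div (Real.rpow_pos_of_pos hl0 _)]
    exact hb
  linarith

/-- the clamped points -/
noncomputable def cc (D : ℝ) (x₀ x₁ m : ℕ) : ℕ := max x₀ (min x₁ (gg D m))

theorem cc_ge (D : ℝ) (x₀ x₁ m : ℕ) : x₀ ≤ cc D x₀ x₁ m := le_max_left _ _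

theorem cc_le (D : ℝ) {x₀ x₁ : ℕ} (h : x₀ ≤ x₁) (m : ℕ) : cc D x₀ x₁ m ≤ x₁ :=
  max_le h (min_le_left _ _)

/-- the logarithms of the clamped points -/
theorem log_cc {D : ℝ} (hD : 1 ≤ D) {x₀ x₁ : ℕ} (hx : 1 ≤ x₀) (hl : 8 ≤ Real.log x₀) (h : x₀ ≤ x₁)
    (m : ℕ) (hm0 : ix D x₀ ≤ m) (hm : m ≤ ix D x₁ + 1) :
    (1 / 4) * (m : ℝ) ^ (1 / D) ≤ Real.log (cc D x₀ x₁ m) := by
  have hD0 : 0 < D := by linarith
  have h4 : 4 ≤ ix D x₀ := by
    have h1 := ix_ge hD (x := x₀) (by linarith)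
    have h2 : 8 ≤ (Real.log x₀) ^ D := by
      calc (8 : ℝ) ≤ Real.log x₀ := hl
        _ = (Real.log x₀) ^ (1 : ℝ) := (Real.rpow_one _).symm
        _ ≤ _ := Real.rpow_le_rpow_of_exponent_le (by linarith) hD
    have h3 : (4 : ℝ) ≤ ((ix D x₀ : ℕ) : ℝ) := by linarith
    exact_mod_cast h3
  have hm4 : 4 ≤ m := h4.trans hm0
  have h1 : gg D (m - 1) ≤ cc D x₀ x₁ m := by
    unfold cc
    apply le_max_of_le_right
    apply le_min
    · exact (gg_mono hD0 (by omega)).trans (gg_le hD0 (hx.trans h))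
    · exact gg_mono hD0 (by omega)
  obtain ⟨w, hw⟩ : ∃ w : ℝ, w = ((m - 1 : ℕ) : ℝ) ^ (1 / D) := ⟨_, rfl⟩
  have hw1 : 1 ≤ w := by
    rw [hw]
    apply Real.one_le_rpow _ (by positivity)
    have : 1 ≤ m - 1 := by omega
    exact_mod_cast this
  have h2 : Real.exp w - 1 < ((gg D (m - 1) : ℕ) : ℝ) := by
    unfold gg
    rw [hw]
    exact Nat.sub_one_lt_floor _
  have h3 : Real.exp w / 2 ≤ ((gg D (m - 1) : ℕ) : ℝ) := by
    have : 2 ≤ Real.exp w := by
      have := Real.add_one_le_exp w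
      linarith
    linarith
  have h5 : Real.exp w / 2 ≤ ((cc D x₀ x₁ m : ℕ) : ℝ) := by
    have : ((gg D (m - 1) : ℕ) : ℝ) ≤ ((cc D x₀ x₁ m : ℕ) : ℝ) := by exact_mod_cast h1
    linarith
  have h6 : w - Real.log 2 ≤ Real.log (cc D x₀ x₁ m) := by
    have h7 := Real.log_le_log (by positivity) h5
    rwa [Real.log_div (Real.exp_pos _).ne' (by norm_num), Real.log_exp] at h7
  have hcx : Real.log x₀ ≤ Real.log (cc D x₀ x₁ m) :=
    Real.log_le_log (by exact_mod_cast hx) (by exact_mod_cast cc_ge D x₀ x₁ m)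
  have hlog2 : Real.log 2 < 1 := by
    have := Real.log_two_lt_d9
    linarith
  have h8 : w / 2 ≤ Real.log (cc D x₀ x₁ m) := by
    rcases le_or_gt w 2 with h9 | h9
    · linarith
    · linarith
  have h9 : (1 / 2 : ℝ) * (m : ℝ) ^ (1 / D) ≤ w := by
    have h10 : (m : ℝ) * (1 / 2) ≤ ((m - 1 : ℕ) : ℝ) := by
      rw [Nat.cast_sub (by omega)]
      have : (4 : ℝ) ≤ m := by exact_mod_cast hm4
      push_cast
      linarith
    have h11 : ((m : ℝ) * (1 / 2)) ^ (1 / D) ≤ w := by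
      rw [hw]
      exact Real.rpow_le_rpow (by positivity) h10 (by positivity)
    rw [Real.mul_rpow (by positivity) (by norm_num)] at h11
    have h12 : (1 / 2 : ℝ) ≤ (1 / 2 : ℝ) ^ (1 / D) := by
      calc (1 / 2 : ℝ) = (1 / 2 : ℝ) ^ (1 : ℝ) := (Real.rpow_one _).symm
        _ ≤ _ := Real.rpow_le_rpow_of_exponent_ge (by norm_num) (by norm_num)
          (by rw [div_le_one hD0]; exact hD)
    have h13 : 0 ≤ (m : ℝ) ^ (1 / D) := by positivity
    nlinarith
  linarith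

/-- the sum of the exceptional proportions -/
theorem sum_cc {D : ℝ} (hD : 1 ≤ D) {x₀ x₁ : ℕ} (hx : 1 ≤ x₀) (hl : 8 ≤ Real.log x₀) (h : x₀ ≤ x₁) :
    ∑ m ∈ Icc (ix D x₀) (ix D x₁ + 1), 1 / (Real.log (cc D x₀ x₁ m)) ^ (2 * D) ≤
      4 ^ (2 * D + 1) / (Real.log x₀) ^ D := by
  have hD0 : 0 < D := by linarith
  have hm0 := ix_ge hD (x := x₀) (by linarith)
  have hlD : 8 ≤ (Real.log x₀) ^ D := by
    calc (8 : ℝ) ≤ Real.log x₀ := hl
      _ = (Real.log x₀) ^ (1 : ℝ) := (Real.rpow_one _).symm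
      _ ≤ _ := Real.rpow_le_rpow_of_exponent_le (by linarith) hD
  have h4 : 4 ≤ ix D x₀ := by
    have h3 : (4 : ℝ) ≤ ((ix D x₀ : ℕ) : ℝ) := by linarith
    exact_mod_cast h3
  have h1 : ∀ m ∈ Icc (ix D x₀) (ix D x₁ + 1), 1 / (Real.log (cc D x₀ x₁ m)) ^ (2 * D) ≤
      4 ^ (2 * D) * ((m : ℝ) ^ 2)⁻¹ := by
    intro m hm
    rw [mem_Icc] at hm
    have h2 := log_cc hD hx hl h m hm.1 hm.2
    have hmp : (0 : ℝ) < m := by
      have : 0 < m := by omega
      exact_mod_cast this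
    have h3 : ((1 / 4) * (m : ℝ) ^ (1 / D)) ^ (2 * D) ≤ (Real.log (cc D x₀ x₁ m)) ^ (2 * D) :=
      Real.rpow_le_rpow (by positivity) h2 (by positivity)
    have h5 : ((1 / 4) * (m : ℝ) ^ (1 / D)) ^ (2 * D) = (4 ^ (2 * D))⁻¹ * (m : ℝ) ^ 2 := by
      rw [Real.mul_rpow (by norm_num) (by positivity), ← Real.rpow_mul hmp.le]
      have e1 : 1 / D * (2 * D) = (2 : ℕ) := by
        push_cast
        field_simp
      rw [e1, Real.rpow_natCast, one_div, Real.inv_rpow (by norm_num)]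
    rw [h5] at h3
    have h6 : 0 < ((4 : ℝ) ^ (2 * D))⁻¹ * (m : ℝ) ^ 2 := by positivity
    calc 1 / (Real.log (cc D x₀ x₁ m)) ^ (2 * D) ≤ 1 / (((4 : ℝ) ^ (2 * D))⁻¹ * (m : ℝ) ^ 2) :=
          one_div_le_one_div_of_le h6 h3
      _ = _ := by
        rw [one_div, mul_inv, inv_inv]
  refine (Finset.sum_le_sum h1).trans ?_
  rw [← Finset.mul_sum]
  have h2 : Icc (ix D x₀) (ix D x₁ + 1) = Ioo (ix D x₀ - 1) (ix D x₁ + 2) := by
    ext m
    rw [mem_Icc, mem_Ioo]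
    omega
  have h3 : ∑ m ∈ Icc (ix D x₀) (ix D x₁ + 1), ((m : ℝ) ^ 2)⁻¹ ≤ 2 / (ix D x₀ : ℝ) := by
    rw [h2]
    refine (sum_Ioo_inv_sq_le (α := ℝ) (ix D x₀ - 1) (ix D x₁ + 2)).trans (le_of_eq ?_)
    rw [Nat.cast_sub (by omega)]
    push_cast
    ring
  have h5 : 2 / (ix D x₀ : ℝ) ≤ 4 / (Real.log x₀) ^ D := by
    rw [div_le_div_iff₀ (by linarith) (by linarith)]
    linarith
  calc (4 : ℝ) ^ (2 * D) * ∑ m ∈ Icc (ix D x₀) (ix D x₁ + 1), ((m : ℝ) ^ 2)⁻¹
      ≤ (4 : ℝ) ^ (2 * D) * (4 / (Real.log x₀) ^ D) :=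
        mul_le_mul_of_nonneg_left (h3.trans h5) (by positivity)
    _ = _ := by
      rw [Real.rpow_add (by norm_num), Real.rpow_one]
      ring

/-- the inequality at `x`, from the inequalities at the neighbouring points -/
theorem near (A D l ly lz Mx My Mz cx cy cz h : ℝ) (hA : 0 < A) (hD : D = A + 6) (hl : 40 ≤ l)
    (hl2 : 4 * 2 ^ (2 * D) ≤ l) (hly : l / 2 ≤ ly) (hlz : l ≤ lz) (hM : 0 ≤ Mx)
    (hh : 0 ≤ h) (hhM : h ≤ 5 * l ^ (4 - D) * Mx) (hMy : Mx ≤ My + h) (hMz : Mz ≤ Mx + h)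
    (hMy0 : My ≤ Mx)
    (h1 : cy ≤ cx) (h2 : cx ≤ cz) (h3 : |cy - My| ≤ My / ly ^ (2 * D))
    (h4 : |cz - Mz| ≤ Mz / lz ^ (2 * D)) : |cx - Mx| ≤ Mx / l ^ A := by
  have hl0 : 0 < l := by linarith
  have hD6 : 6 < D := by linarith
  -- the powers
  obtain ⟨P, hP⟩ : ∃ P : ℝ, P = (l ^ A)⁻¹ := ⟨_, rfl⟩
  have hP0 : 0 < P := by rw [hP]; positivity
  have hP1 : P ≤ 1 := by
    rw [hP]
    apply inv_le_one_of_one_le₀
    exact Real.one_le_rpow (by linarith) hA.le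
  have e1 : 5 * l ^ (4 - D) ≤ P / 8 := by
    have h5 : l ^ (4 - D) = P * (l ^ (2 : ℝ))⁻¹ := by
      rw [hP, ← Real.rpow_neg hl0.le, ← Real.rpow_neg hl0.le, ← Real.rpow_add hl0]
      congr 1
      rw [hD]
      ring
    have h6 : (l ^ (2 : ℝ))⁻¹ ≤ 1 / 40 := by
      rw [← one_div]
      apply one_div_le_one_div_of_le (by norm_num)
      calc (40 : ℝ) ≤ l := hl
        _ = l ^ (1 : ℝ) := (Real.rpow_one _).symm
        _ ≤ _ := Real.rpow_le_rpow_of_exponent_le (by linarith) (by norm_num)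
    rw [h5]
    nlinarith
  have e2 : ∀ y : ℝ, l / 2 ≤ y → (y ^ (2 * D))⁻¹ ≤ P / 4 := by
    intro y hy
    have h5 : (l / 2) ^ (2 * D) ≤ y ^ (2 * D) := Real.rpow_le_rpow (by linarith) hy (by linarith)
    have h6 : (l / 2) ^ (2 * D) = l ^ (2 * D) / 2 ^ (2 * D) :=
      Real.div_rpow hl0.le (by norm_num) _
    have h7 : l ^ (A + 1) ≤ l ^ (2 * D) := Real.rpow_le_rpow_of_exponent_le (by linarith) (by linarith)
    have h8 : l ^ (A + 1) = l ^ A * l := by rw [Real.rpow_add hl0, Real.rpow_one]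
    have h9 : (0 : ℝ) < 2 ^ (2 * D) := by positivity
    have h10 : 4 * l ^ A ≤ (l / 2) ^ (2 * D) := by
      rw [h6, le_div_iff₀ h9]
      calc 4 * l ^ A * 2 ^ (2 * D) = l ^ A * (4 * 2 ^ (2 * D)) := by ring
        _ ≤ l ^ A * l := mul_le_mul_of_nonneg_left hl2 (by positivity)
        _ ≤ _ := by rw [← h8]; exact h7
    have h11 : (0 : ℝ) < 4 * l ^ A := by positivity
    calc (y ^ (2 * D))⁻¹ ≤ (4 * l ^ A)⁻¹ := inv_anti₀ h11 (h10.trans h5)
      _ = P / 4 := by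
        rw [hP, mul_inv]
        ring
  have f1 := e2 ly hly
  have f2 := e2 lz (by linarith)
  rw [div_eq_mul_inv] at h3 h4 ⊢
  rw [← hP]
  have g1 : h ≤ P / 8 * Mx := hhM.trans (mul_le_mul_of_nonneg_right e1 hM)
  have hly0 : 0 ≤ (ly ^ (2 * D))⁻¹ := by
    have : 0 ≤ ly := by linarith
    positivity
  have hlz0 : 0 ≤ (lz ^ (2 * D))⁻¹ := by
    have : 0 ≤ lz := by linarith
    positivity
  have hPM : P * Mx ≤ Mx := by nlinarith
  have hPM0 : 0 ≤ P * Mx := by positivity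
  have hMy1 : 0 ≤ My := by linarith
  have g2 : My * (ly ^ (2 * D))⁻¹ ≤ P / 4 * Mx := by
    calc My * (ly ^ (2 * D))⁻¹ ≤ Mx * (P / 4) := mul_le_mul hMy0 f1 hly0 hM
      _ = _ := by ring
  have g3 : Mz * (lz ^ (2 * D))⁻¹ ≤ P / 2 * Mx := by
    calc Mz * (lz ^ (2 * D))⁻¹ ≤ (2 * Mx) * (P / 4) := by
          apply mul_le_mul _ f2 hlz0 (by linarith)
          linarith
      _ = _ := by ring
  rw [abs_le] at h3 h4 ⊢
  have : Mx * P = P * Mx := mul_comm _ _
  constructor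
  · linarith [h3.1]
  · linarith [h4.2]

theorem ev_log (c : ℝ) : ∀ᶠ x : ℕ in atTop, c ≤ Real.log x :=
  (Real.tendsto_log_atTop.comp tendsto_natCast_atTop_atTop).eventually_ge_atTop c

theorem ev_pow (r : ℝ) : ∀ᶠ x : ℕ in atTop, (Real.log x) ^ r ≤ x := by
  have h1 := isLittleO_log_rpow_rpow_atTop r (one_pos (α := ℝ))
  have h2 := h1.bound (one_pos (α := ℝ))
  have h3 := tendsto_natCast_atTop_atTop (R := ℝ) |>.eventually h2
  filter_upwards [h3, ev_log 1] with x h4 h5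
  rw [Real.rpow_one, one_mul, Real.norm_eq_abs, Real.norm_eq_abs,
    abs_of_nonneg (Real.rpow_nonneg (by linarith) _), abs_of_nonneg (Nat.cast_nonneg _)] at h4
  exact h4

/-- one point -/
theorem pointwise {A D : ℝ} (hA : 0 < A) (hD : D = A + 6) {x₀ x₁ x n : ℕ} (t : Fin n → ℤ)
    (a : Fin n → ℕ) (hx0 : 1 ≤ x₀) (h0 : x₀ ≤ x) (h1 : x ≤ x₁) (hl : 40 ≤ Real.log x)
    (hl2 : 4 * 2 ^ (2 * D) ≤ Real.log x) (hb : (Real.log x) ^ (D - 1) ≤ x)
    (hlow : (1 / 2 : ℝ) ^ n * ((x : ℝ) / (Real.log x) ^ 3) ≤ main t x)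
    (H : ∀ m ∈ Icc (ix D x₀) (ix D x₁ + 1), |cnt t a (cc D x₀ x₁ m) - main t (cc D x₀ x₁ m)| ≤
      main t (cc D x₀ x₁ m) / (Real.log (cc D x₀ x₁ m)) ^ (2 * D)) :
    |cnt t a x - main t x| ≤ main t x / (Real.log x) ^ A := by
  have hD0 : 0 < D := by linarith
  have hx1 : 1 ≤ x := hx0.trans h0
  have hxp : (0 : ℝ) < x := by exact_mod_cast hx1
  obtain ⟨m, hm⟩ : ∃ m, m = ix D x := ⟨_, rfl⟩
  have hm0 : ix D x₀ ≤ m := by rw [hm]; exact ix_mono hD0 hx0 h0
  have hm1 : m ≤ ix D x₁ := by rw [hm]; exact ix_mono hD0 hx1 h1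
  have g0 : gg D m ≤ x := by rw [hm]; exact gg_le hD0 hx1
  have g1 : x ≤ gg D (m + 1) := by rw [hm]; exact le_gg hD0 hx1
  have hgap := gap (D := D) (by linarith) hx1 (by linarith) hb
  rw [← hm] at hgap
  obtain ⟨y, hy⟩ : ∃ y, y = cc D x₀ x₁ m := ⟨_, rfl⟩
  obtain ⟨z, hz⟩ : ∃ z, z = cc D x₀ x₁ (m + 1) := ⟨_, rfl⟩
  have hyx : y ≤ x := by
    rw [hy]
    exact max_le h0 ((min_le_right _ _).trans g0)
  have hxz : x ≤ z := by
    rw [hz]
    exact le_max_of_le_right (le_min h1 g1)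
  have hgy : gg D m ≤ y := by
    rw [hy]
    exact le_max_of_le_right (le_min (g0.trans h1) le_rfl)
  have hzg : z ≤ gg D (m + 1) := by
    rw [hz]
    exact max_le (h0.trans g1) (min_le_right _ _)
  have hy1 : 1 ≤ y := by
    rw [hy]
    exact hx0.trans (cc_ge _ _ _ _)
  have hyp : (0 : ℝ) < y := by exact_mod_cast hy1
  have hyx' : (y : ℝ) ≤ x := by exact_mod_cast hyx
  have hxz' : (x : ℝ) ≤ z := by exact_mod_cast hxz
  have hgy' : ((gg D m : ℕ) : ℝ) ≤ y := by exact_mod_cast hgy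
  have hzg' : (z : ℝ) ≤ ((gg D (m + 1) : ℕ) : ℝ) := by exact_mod_cast hzg
  obtain ⟨l, hl'⟩ : ∃ l, l = Real.log x := ⟨_, rfl⟩
  rw [← hl'] at hl hl2 hb hlow hgap ⊢
  have hl0 : 0 < l := by linarith
  obtain ⟨w, hw⟩ : ∃ w : ℝ, w = 5 * (x * l ^ (1 - D)) := ⟨_, rfl⟩
  rw [← hw] at hgap
  have hl1 : l ^ (1 - D) ≤ 1 / 40 := by
    calc l ^ (1 - D) ≤ l ^ (-1 : ℝ) := Real.rpow_le_rpow_of_exponent_le (by linarith) (by linarith)
      _ = 1 / l := by rw [Real.rpow_neg_one, one_div]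
      _ ≤ 1 / 40 := one_div_le_one_div_of_le (by norm_num) hl
  have hwx : w ≤ x / 2 := by
    rw [hw]
    nlinarith
  have hlogy : l / 2 ≤ Real.log y := by
    have h2 : (x : ℝ) / 2 ≤ y := by linarith
    have h3 := Real.log_le_log (by positivity) h2
    rw [Real.log_div hxp.ne' (by norm_num), ← hl'] at h3
    have := Real.log_two_lt_d9
    linarith
  have hlogz : l ≤ Real.log z := by
    rw [hl']
    exact Real.log_le_log hxp hxz'
  have hM := main_nonneg t x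
  have hh : 0 ≤ (1 / 2 : ℝ) ^ n * w := by
    rw [hw]
    positivity
  have hhM : (1 / 2 : ℝ) ^ n * w ≤ 5 * l ^ (4 - D) * main t x := by
    have h2 : l ^ (4 - D) = l ^ 3 * l ^ (1 - D) := by
      rw [← Real.rpow_natCast l 3, ← Real.rpow_add hl0]
      congr 1
      push_cast
      ring
    have h3 : (1 / 2 : ℝ) ^ n * (x : ℝ) ≤ l ^ 3 * main t x := by
      have h4 : (1 / 2 : ℝ) ^ n * (x : ℝ) = l ^ 3 * ((1 / 2 : ℝ) ^ n * ((x : ℝ) / l ^ 3)) := by
        field_simp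
      rw [h4]
      exact mul_le_mul_of_nonneg_left hlow (by positivity)
    rw [h2, hw]
    calc (1 / 2 : ℝ) ^ n * (5 * (x * l ^ (1 - D))) = (5 * l ^ (1 - D)) * ((1 / 2 : ℝ) ^ n * (x : ℝ)) := by
          ring
      _ ≤ (5 * l ^ (1 - D)) * (l ^ 3 * main t x) := mul_le_mul_of_nonneg_left h3 (by positivity)
      _ = _ := by ring
  have hMy : main t x ≤ main t y + (1 / 2 : ℝ) ^ n * w := by
    refine (main_diff t hyx).trans ?_
    have h2 : (1 / 2 : ℝ) ^ n * ((x : ℝ) - y) ≤ (1 / 2 : ℝ) ^ n * w :=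
      mul_le_mul_of_nonneg_left (by linarith) (by positivity)
    linarith
  have hMz : main t z ≤ main t x + (1 / 2 : ℝ) ^ n * w := by
    refine (main_diff t hxz).trans ?_
    have h2 : (1 / 2 : ℝ) ^ n * ((z : ℝ) - x) ≤ (1 / 2 : ℝ) ^ n * w :=
      mul_le_mul_of_nonneg_left (by linarith) (by positivity)
    linarith
  have hy' := H m (mem_Icc.2 ⟨hm0, by omega⟩)
  have hz' := H (m + 1) (mem_Icc.2 ⟨by omega, by omega⟩)
  rw [← hy] at hy'
  rw [← hz] at hz'
  exact near A D l (Real.log y) (Real.log z) (main t x) (main t y) (main t z) (cnt t a x) (cnt t a y)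
    (cnt t a z) ((1 / 2 : ℝ) ^ n * w) hA hD hl hl2 hlogy hlogz hM hh hhM hMy hMz (main_mono t hyx)
    (cnt_mono t a hyx) (cnt_mono t a hxz) hy' hz'

end Pool.Agent.Q150.ART

namespace Pool.Agent.Q145.ART

open Finset Filter
open Pool.Agent.Q150.ART

theorem t_SAN : S_SAN := by
  intro hsv hlow hfix A δ hA hδ hδ1
  obtain ⟨C₂, hC₂⟩ := main_low (hlow hsv)
  obtain ⟨D, hD⟩ : ∃ D : ℝ, D = A + 6 := ⟨_, rfl⟩
  have hD6 : 6 < D := by linarith
  obtain ⟨C₁, κ, hκ0, hκ1, hfix'⟩ := hfix (2 * D) δ (by linarith) hδ hδ1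
  have hev : ∀ᶠ x : ℕ in atTop, (Real.log x) ^ (D - 1) ≤ x ∧ 40 ≤ Real.log x ∧
      4 * 2 ^ (2 * D) ≤ Real.log x ∧ 4 ^ (2 * D + 1) ≤ Real.log x ∧ 1 ≤ x := by
    filter_upwards [ev_pow (D - 1), ev_log 40, ev_log (4 * 2 ^ (2 * D)), ev_log (4 ^ (2 * D + 1)),
      eventually_ge_atTop 1] with x h1 h2 h3 h4 h5
    exact ⟨h1, h2, h3, h4, h5⟩
  obtain ⟨X, hX⟩ := eventually_atTop.1 hev
  refine ⟨max (max C₁ C₂) (max X 1), κ, hκ0, hκ1, ?_⟩
  intro x₀ x₁ N n E t hx0 hN hn hE hE2 ht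
  have c1 : C₁ ≤ x₀ := ((le_max_left _ _).trans (le_max_left _ _)).trans hx0
  have c2 : C₂ ≤ x₀ := ((le_max_right _ _).trans (le_max_left _ _)).trans hx0
  have c3 : X ≤ x₀ := by
    have : (X : ℝ) ≤ x₀ := ((le_max_left _ _).trans (le_max_right _ _)).trans hx0
    exact_mod_cast this
  obtain ⟨-, d2, -, d4, d5⟩ := hX x₀ c3
  have hl0 : 0 < Real.log x₀ := by linarith
  have hprod : 0 ≤ ∏ i, ((E i).card : ℝ) := by positivity
  by_cases h01 : x₀ ≤ x₁
  swap
  · have h1 : num (Fintype.piFinset E) (fun a => ∃ x : ℕ, x₀ ≤ x ∧ x ≤ x₁ ∧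
        main t x / (Real.log x) ^ A < |cnt t a x - main t x|) ≤
        num (∅ : Finset (Fin n → ℕ)) (fun _ => False) := by
      classical
      unfold num
      rw [Finset.filter_false_of_mem]
      · simp
      · rintro a - ⟨x, h2, h3, -⟩
        exact h01 (h2.trans h3)
    refine h1.trans ?_
    have h2 : num (∅ : Finset (Fin n → ℕ)) (fun _ => False) = 0 := by
      unfold num
      simp
    rw [h2]
    positivity
  have hx0p : (0 : ℝ) < x₀ := by exact_mod_cast d5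
  have hlog01 : ∀ m, Real.log x₀ ≤ Real.log (cc D x₀ x₁ m) := fun m =>
    Real.log_le_log hx0p (by exact_mod_cast cc_ge D x₀ x₁ m)
  have hlog02 : ∀ m, Real.log (cc D x₀ x₁ m) ≤ Real.log x₁ := fun m =>
    Real.log_le_log (by exact_mod_cast d5.trans (cc_ge D x₀ x₁ m))
      (by exact_mod_cast cc_le D h01 m)
  -- FIX at the points
  have hpt : ∀ m, num (Fintype.piFinset E) (fun a => main t (cc D x₀ x₁ m) /
      (Real.log (cc D x₀ x₁ m)) ^ (2 * D) < |cnt t a (cc D x₀ x₁ m) - main t (cc D x₀ x₁ m)|) ≤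
      (∏ i, ((E i).card : ℝ)) / (Real.log (cc D x₀ x₁ m)) ^ (2 * D) := by
    intro m
    have hc0 := cc_ge D x₀ x₁ m
    have hc0' : (x₀ : ℝ) ≤ cc D x₀ x₁ m := by exact_mod_cast hc0
    apply hfix' (cc D x₀ x₁ m) N n E t (c1.trans hc0') _ _ hE _ ht
    · refine le_trans ?_ hN
      have h1 : √(Real.log (cc D x₀ x₁ m) * Real.log (Real.log (cc D x₀ x₁ m))) ≤
          √(Real.log x₁ * Real.log (Real.log x₁)) := by
        apply Real.sqrt_le_sqrt
        have e1 := hlog01 m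
        have e2 := hlog02 m
        have e3 : 0 ≤ Real.log (Real.log (cc D x₀ x₁ m)) := Real.log_nonneg (by linarith)
        exact mul_le_mul e2 (Real.log_le_log (by linarith) e2) e3 (by linarith)
      calc C₁ * √(Real.log (cc D x₀ x₁ m) * Real.log (Real.log (cc D x₀ x₁ m)))
          ≤ max (max C₁ C₂) (max (X : ℝ) 1) *
            √(Real.log (cc D x₀ x₁ m) * Real.log (Real.log (cc D x₀ x₁ m))) :=
            mul_le_mul_of_nonneg_right ((le_max_left _ _).trans (le_max_left _ _)) (Real.sqrt_nonneg _)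
        _ ≤ _ := by
            apply mul_le_mul_of_nonneg_left h1
            have : (1 : ℝ) ≤ max (max C₁ C₂) (max (X : ℝ) 1) :=
              (le_max_right _ _).trans (le_max_right _ _)
            linarith
    · refine hn.trans (mul_le_mul_of_nonneg_left (hlog01 m) (by linarith))
    · intro i
      refine (hE2 i).trans ?_
      apply mul_le_mul_of_nonneg_left _ (by positivity)
      apply Real.rpow_le_rpow (by positivity) _ hκ0.le
      have : min N x₀ ≤ min N (cc D x₀ x₁ m) := min_le_min le_rfl hc0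
      exact_mod_cast this
  have hmain : ∀ a ∈ Fintype.piFinset E, (∃ x : ℕ, x₀ ≤ x ∧ x ≤ x₁ ∧
      main t x / (Real.log x) ^ A < |cnt t a x - main t x|) →
      ∃ m ∈ Icc (ix D x₀) (ix D x₁ + 1), main t (cc D x₀ x₁ m) /
      (Real.log (cc D x₀ x₁ m)) ^ (2 * D) < |cnt t a (cc D x₀ x₁ m) - main t (cc D x₀ x₁ m)| := by
    rintro a - ⟨x, h1, h2, h3⟩
    by_contra hcon
    push Not at hcon
    obtain ⟨b1, b2, b3, -, -⟩ := hX x (c3.trans h1)
    have hxx : (x₀ : ℝ) ≤ x := by exact_mod_cast h1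
    have hlx : Real.log x₀ ≤ Real.log x := Real.log_le_log hx0p hxx
    have hnn : (n : ℝ) ≤ 2 * Real.log x := by
      have e1 : (n : ℝ) * Real.log 2 ≤ Real.log x₀ := by
        refine hn.trans ?_
        nlinarith
      have e2 := Real.log_two_gt_d9
      have e3 : (n : ℝ) * (1 / 2) ≤ (n : ℝ) * Real.log 2 :=
        mul_le_mul_of_nonneg_left (by linarith) (by positivity)
      linarith
    have := pointwise hA hD t a d5 h1 h2 b2 b3 b1 (hC₂ x n t (c2.trans hxx) hnn) hcon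
    exact absurd h3 (not_lt.2 this)
  have hA1 := (num_mono (Fintype.piFinset E) (Fintype.piFinset E) _ _ (Finset.Subset.refl _) hmain).trans
    (num_exists (Fintype.piFinset E) (Icc (ix D x₀) (ix D x₁ + 1)) (fun m a => main t (cc D x₀ x₁ m) /
      (Real.log (cc D x₀ x₁ m)) ^ (2 * D) < |cnt t a (cc D x₀ x₁ m) - main t (cc D x₀ x₁ m)|))
  refine hA1.trans ((Finset.sum_le_sum fun m _ => hpt m).trans ?_)
  have hs := sum_cc (D := D) (by linarith) d5 (by linarith) h01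
  have e1 : ∑ m ∈ Icc (ix D x₀) (ix D x₁ + 1),
      (∏ i, ((E i).card : ℝ)) / (Real.log (cc D x₀ x₁ m)) ^ (2 * D) =
      (∏ i, ((E i).card : ℝ)) * ∑ m ∈ Icc (ix D x₀) (ix D x₁ + 1),
        1 / (Real.log (cc D x₀ x₁ m)) ^ (2 * D) := by
    rw [Finset.mul_sum]
    refine Finset.sum_congr rfl fun m _ => ?_
    rw [mul_one_div]
  rw [e1, div_eq_mul_one_div (∏ i, ((E i).card : ℝ))]
  apply mul_le_mul_of_nonneg_left _ hprod
  refine hs.trans ?_
  rw [div_le_div_iff₀ (by positivity) (by positivity), one_mul]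
  calc (4 : ℝ) ^ (2 * D + 1) * (Real.log x₀) ^ A ≤ Real.log x₀ * (Real.log x₀) ^ A :=
        mul_le_mul_of_nonneg_right d4 (by positivity)
    _ = (Real.log x₀) ^ (A + 1) := by
        rw [Real.rpow_add hl0, Real.rpow_one, mul_comm]
    _ ≤ _ := Real.rpow_le_rpow_of_exponent_le (by linarith) (by linarith)

end Pool.Agent.Q145.ART
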